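import Mathlib

/-!
The recurrence y(n+3) = (B + y(n+2)) / (B + y n) with B = 1 / 2^1664
(problem MP_7a141f_an).  Basic definitions, and the statements of the pieces.
The proof sketches are in `notes.md` in this folder.
-/

namespace Pool.Agent.R993.RR

open Filter Topology

/-- The parameter. -/
noncomputable def B : ℝ := 1 / 2 ^ 1664

/-- Positive solutions. -/
structure IsSol (y : ℕ → ℝ) : Prop where
  pos : ∀ n, 0 < y n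
  step : ∀ n, y (n + 3) = (B + y (n + 2)) / (B + y n)

/-- `N` is a deep section of `y`. -/
def Deep (y : ℕ → ℝ) (N : ℕ) : Prop :=
  y N ≤ B / 2 ^ 200 ∧ y (N + 1) ≤ B / 2 ^ 200 ∧ y (N + 2) ≤ 2

noncomputable def U (y : ℕ → ℝ) (N : ℕ) : ℝ := B + y (N + 2)

noncomputable def W (y : ℕ → ℝ) (N : ℕ) : ℝ := U y N / B

noncomputable def f (x : ℝ) : ℝ := x ^ 2 / (1 + x ^ 2)

noncomputable def tau : ℝ := 1 / 2 ^ 150

def Loopable (y : ℕ → ℝ) (N : ℕ) : Prop := Deep y N ∧ U y N ≤ 1 / 2 ^ 1100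

noncomputable def th (y : ℕ → ℝ) (n : ℕ) : ℝ := y n / (B + y n)

noncomputable def rho (y z : ℕ → ℝ) (n : ℕ) : ℝ := Real.log (B + z n) - Real.log (B + y n)

noncomputable def lam (y z : ℕ → ℝ) (N : ℕ) : ℝ := |rho y z N| + |rho y z (N + 1)|

noncomputable def RR (y z : ℕ → ℝ) (N : ℕ) : ℝ := rho y z (N + 2)

theorem B_pos : 0 < B := by unfold B; positivity

theorem B_mul : B * 2 ^ 1664 = 1 := by
  unfold B
  have : (2 : ℝ) ^ 1664 ≠ 0 := by positivity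
  field_simp

theorem IsSol.shift {y : ℕ → ℝ} (h : IsSol y) (k : ℕ) : IsSol (fun n => y (n + k)) := by
  refine ⟨fun n => h.pos _, fun n => ?_⟩
  have e := h.step (n + k)
  have a : n + 3 + k = n + k + 3 := by omega
  have b : n + 2 + k = n + k + 2 := by omega
  simp only [a, b]
  exact e

/-! ### Statements -/

/-- log-difference step with an intermediate coefficient -/
def StT : Prop := ∀ y z : ℕ → ℝ, IsSol y → IsSol z → ∀ n : ℕ, ∃ θ : ℝ,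
  min (th y (n + 3)) (th z (n + 3)) ≤ θ ∧ θ ≤ max (th y (n + 3)) (th z (n + 3)) ∧
    rho y z (n + 3) = θ * (rho y z (n + 2) - rho y z n)

/-- solutions staying above `64 B` converge to `1` -/
def St1 : Prop := ∀ y : ℕ → ℝ, IsSol y → (∀ n, 64 * B ≤ y n) → Tendsto y atTop (𝓝 1)

/-- piecewise linear entry lemma (`l n` stands for the base 2 logarithm of `B + y n`) -/
def St2b : Prop := ∀ l : ℕ → ℝ, (∀ n, -1664 ≤ l n) → l 2 ≤ -1657 →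
  (∀ n, l (n + 2) - l n ≤ l (n + 3)) →
  (∀ n, l (n + 3) ≤ max (-1664) (l (n + 2) - l n) + 1) →
  ∃ N, l (N + 2) - l N ≤ -1864 ∧ l (N + 3) - l (N + 1) ≤ -1864 ∧ l (N + 4) - l (N + 2) ≤ 1

/-- a small value leads to a deep section -/
def St2 : Prop := ∀ y : ℕ → ℝ, IsSol y → y 2 < 64 * B → ∃ N, Deep y N

/-- type i cycle, 8 steps -/
def St3 : Prop := ∀ y : ℕ → ℝ, IsSol y → ∀ N : ℕ, Deep y N → 1 / 2 ^ 1250 ≤ U y N →
  1 - tau ≤ th y (N + 3) ∧ 1 - tau ≤ th y (N + 4) ∧ 1 - tau ≤ th y (N + 5) ∧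
  1 - tau ≤ th y (N + 6) ∧ (1 - tau) / (1 + U y N ^ 2) ≤ th y (N + 7) ∧
  Deep y (N + 8) ∧
  (1 - tau) * f (U y N) ≤ y (N + 10) ∧ y (N + 10) ≤ (1 + tau) * f (U y N)

/-- type ii cycle, 9 steps -/
def St4 : Prop := ∀ y : ℕ → ℝ, IsSol y → ∀ N : ℕ, Loopable y N →
  1 - tau ≤ th y (N + 3) ∧ 1 - tau ≤ th y (N + 4) ∧ 1 - tau ≤ th y (N + 5) ∧
  1 - tau ≤ th y (N + 6) ∧ 1 - tau ≤ th y (N + 7) ∧
  (1 - tau) / (1 + W y N ^ 2) ≤ th y (N + 8) ∧ th y (N + 8) ≤ (1 + tau) / (1 + W y N ^ 2) ∧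
  Deep y (N + 9) ∧ 1 - tau ≤ th y (N + 11) ∧
  (1 - tau) * f (W y N) ≤ y (N + 11) ∧ y (N + 11) ≤ (1 + tau) * f (W y N)

/-- variation over a type i cycle -/
def St5 : Prop := ∀ y z : ℕ → ℝ, IsSol y → IsSol z → ∀ N : ℕ, Deep y N → Deep z N →
  1 / 2 ^ 1250 ≤ U y N → 1 / 2 ^ 1250 ≤ U z N →
  lam y z (N + 8) ≤ 1 / 2 ^ 140 * (|RR y z N| + lam y z N) ∧
  ∃ t θ : ℝ, 0 ≤ t ∧ t ≤ 2 ∧
    (∀ M : ℝ, U y N ≤ M → U z N ≤ M → (1 - 1 / 2 ^ 100) * (2 / (1 + M ^ 2)) ≤ t) ∧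
    min (th y (N + 10)) (th z (N + 10)) ≤ θ ∧ θ ≤ max (th y (N + 10)) (th z (N + 10)) ∧
    |RR y z (N + 8) - θ * t * RR y z N| ≤ θ * (8 * lam y z N + 1 / 2 ^ 100 * |RR y z N|)

/-- variation over a type ii cycle -/
def St6 : Prop := ∀ y z : ℕ → ℝ, IsSol y → IsSol z → ∀ N : ℕ, Loopable y N → Loopable z N →
  lam y z (N + 9) ≤ 1 / 2 ^ 140 * (|RR y z N| + lam y z N) ∧
  ∃ t : ℝ, 0 ≤ t ∧
    (∀ M : ℝ, W y N ≤ M → W z N ≤ M → (1 - 1 / 2 ^ 100) * (2 / (1 + M ^ 2)) ≤ t) ∧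
    (∀ M : ℝ, 0 ≤ M → M ≤ W y N → M ≤ W z N → t ≤ (1 + 1 / 2 ^ 100) * (2 / (1 + M ^ 2))) ∧
    |RR y z (N + 9) - t * RR y z N| ≤ 8 * lam y z N + 1 / 2 ^ 100 * |RR y z N|

/-- the chain of cycles in one loop of 97 steps -/
def St7 : Prop := ∀ y : ℕ → ℝ, IsSol y → ∀ N : ℕ, Loopable y N →
  (∀ j : ℕ, 1 ≤ j → j ≤ 11 → Deep y (N + 1 + 8 * j) ∧
    1 / 2 ^ 1250 ≤ U y (N + 1 + 8 * j) ∧ U y (N + 1 + 8 * j) ≤ 2) ∧
  Loopable y (N + 97) ∧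
  (W y N ≤ 5 / 4 → y (N + 99) ≤ B / 2 ^ 150) ∧
  (2 ≤ W y N → 1024 ≤ W y (N + 97)) ∧
  (W y N < 2 → U y (N + 9) ≤ 81 / 100 ∧
    ∀ j : ℕ, 2 ≤ j → j ≤ 11 → U y (N + 1 + 8 * j) ≤ 2 / 5)

/-- variation over one loop -/
def St8 : Prop := ∀ y z : ℕ → ℝ, IsSol y → IsSol z → ∀ N : ℕ, Loopable y N → Loopable z N →
  lam y z (N + 97) ≤ 1 / 2 ^ 100 * (|RR y z N| + lam y z N) ∧
  (W y N ≤ 5 / 4 → W z N ≤ 5 / 4 →
    |RR y z (N + 97)| ≤ 1 / 2 ^ 100 * (|RR y z N| + lam y z N)) ∧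
  (1024 ≤ W y N → 1024 ≤ W z N →
    |RR y z (N + 97)| ≤ 1 / 2 ^ 7 * |RR y z N| + 2 ^ 15 * lam y z N) ∧
  (W y N < 2 → W z N < 2 → 5 / 4 ≤ W y (N + 97) → 5 / 4 ≤ W z (N + 97) →
    5 * |RR y z N| - 2 ^ 15 * lam y z N ≤ |RR y z (N + 97)|)

/-- every deep section leads to a loopable one -/
def St9 : Prop := ∀ y : ℕ → ℝ, IsSol y → ∀ N : ℕ, Deep y N → ∃ N', Loopable y N'

/-- geometric decay of the difference with the shift by 97 -/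
def St10a : Prop := ∀ y : ℕ → ℝ, IsSol y → ∀ N : ℕ, Loopable y N →
  ∃ C q : ℝ, 0 < q ∧ q < 1 ∧ ∀ n, |rho y (fun k => y (k + 97)) n| ≤ C * q ^ n

/-- from geometric decay to a periodic limit -/
def St10b : Prop := ∀ y : ℕ → ℝ, IsSol y →
  (∃ C q : ℝ, 0 < q ∧ q < 1 ∧ ∀ n, |rho y (fun k => y (k + 97)) n| ≤ C * q ^ n) →
  ∃ p : ℕ → ℝ, IsSol p ∧ (∀ n, p (n + 97) = p n) ∧ Tendsto (fun n => y n - p n) atTop (𝓝 0)

end Pool.Agent.R993.RR
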