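import Pool.Agent.R993.RR.Defs

namespace Pool.Agent.R993.RR

open Filter Topology

/-- perturbed linear recurrence: bounded solutions tend to zero -/
def St1a : Prop := ∀ R : ℕ → ℝ, (∃ M, ∀ n, |R n| ≤ M) →
  (∀ n, |R (n + 3) - (R (n + 2) - R n)| ≤ 1 / 65 * |R (n + 2) - R n|) →
  Tendsto R atTop (𝓝 0)

end Pool.Agent.R993.RR
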