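import Pool.Agent.R993.RR.Defs
import Pool.Agent.R993.RR.Stm1

namespace Pool.Agent.R993.RR

open Filter Topology

theorem final_of (h1 : St1) (h2 : St2) (h9 : St9) (h10a : St10a) (h10b : St10b)
    (y : ℕ → ℝ) (hy : IsSol y) :
    Tendsto y atTop (𝓝 1) ∨ ∃ p : ℕ → ℝ, IsSol p ∧ (∀ n, p (n + 97) = p n) ∧
      Tendsto (fun n => y n - p n) atTop (𝓝 0) := by
  by_cases hc : ∀ n, 64 * B ≤ y (n + 2)
  · left
    have := h1 (fun n => y (n + 2)) (hy.shift 2) hc
    exact (tendsto_add_atTop_iff_nat 2).1 this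
  · right
    push Not at hc
    obtain ⟨n, hn⟩ := hc
    have hs : IsSol (fun k => y (k + n)) := hy.shift n
    have hn' : (fun k => y (k + n)) 2 < 64 * B := by
      show y (2 + n) < 64 * B
      rw [Nat.add_comm 2 n]; exact hn
    obtain ⟨N, hN⟩ := h2 _ hs hn'
    have hD : Deep y (N + n) := by
      unfold Deep at hN ⊢
      obtain ⟨a, b, c⟩ := hN
      refine ⟨a, ?_, ?_⟩
      · have e : N + 1 + n = N + n + 1 := by omega
        simp only [e] at b; exact b
      · have e : N + 2 + n = N + n + 2 := by omega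
        simp only [e] at c; exact c
    obtain ⟨N', hL⟩ := h9 y hy _ hD
    exact h10b y hy (h10a y hy N' hL)

theorem B_lt : B < Real.sqrt 2 - 1 := by
  have h1 : (1.25 : ℝ) < Real.sqrt 2 := by
    apply Real.lt_sqrt_of_sq_lt; norm_num
  have h2 : B ≤ 1 / 2 ^ 3 := by
    unfold B
    apply one_div_le_one_div_of_le (by positivity)
    exact pow_le_pow_right₀ (by norm_num) (by norm_num)
  norm_num at h2
  linarith

theorem final_result (h1 : St1) (h2 : St2) (h9 : St9) (h10a : St10a) (h10b : St10b) :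
    ∃ B : ℝ, B = 1 / 2 ^ 1664 ∧ 0 < B ∧ B < Real.sqrt 2 - 1 ∧
      ∀ y : ℕ → ℝ, (∀ n, 0 < y n) → (∀ n, y (n + 3) = (B + y (n + 2)) / (B + y n)) →
        Tendsto y atTop (𝓝 1) ∨
        ∃ p : ℕ → ℝ, (∀ n, 0 < p n) ∧ (∀ n, p (n + 3) = (B + p (n + 2)) / (B + p n)) ∧
          (∀ n, p (n + 97) = p n) ∧ Tendsto (fun n => |y n - p n|) atTop (𝓝 0) := by
  refine ⟨B, rfl, B_pos, B_lt, fun y hp hs => ?_⟩
  rcases final_of h1 h2 h9 h10a h10b y ⟨hp, hs⟩ with h | ⟨p, hpS, hper, ht⟩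
  · exact Or.inl h
  · refine Or.inr ⟨p, hpS.pos, hpS.step, hper, ?_⟩
    have := ht.abs
    simpa using this

end Pool.Agent.R993.RR
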