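import Pool.Agent.R993.RR.Defs

/-! `St2` from `St2b` (problem MP_7a141f_an). -/

namespace Pool.Agent.R993.RR

theorem aux2_B_rpow : B = (2 : ℝ) ^ (-(1664 : ℝ)) := by
  unfold B
  rw [Real.rpow_neg (by norm_num), one_div]
  congr 1
  have h := Real.rpow_natCast (2 : ℝ) 1664
  rw [← h]
  congr 1

theorem aux2_B_div_rpow : B / 2 ^ 200 = (2 : ℝ) ^ (-(1864 : ℝ)) := by
  have h : ((2 : ℝ) ^ 200) = (2 : ℝ) ^ (200 : ℝ) := by
    have h := Real.rpow_natCast (2 : ℝ) 200
    rw [← h]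
    congr 1
  rw [aux2_B_rpow, h, ← Real.rpow_sub (by norm_num)]
  congr 1
  norm_num

theorem aux2_B_mul_rpow : 128 * B = (2 : ℝ) ^ (-(1657 : ℝ)) := by
  have h : (128 : ℝ) = (2 : ℝ) ^ (7 : ℝ) := by
    have h := Real.rpow_natCast (2 : ℝ) 7
    have h7 : ((7 : ℕ) : ℝ) = 7 := by norm_num
    rw [h7] at h
    rw [h]; norm_num
  rw [aux2_B_rpow, h, ← Real.rpow_add (by norm_num)]
  congr 1
  norm_num

theorem st2 (h : St2b) : St2 := by
  intro y hy h2
  have hB := B_pos
  have hu : ∀ n, 0 < B + y n := fun n => add_pos hB (hy.pos n)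
  set l : ℕ → ℝ := fun n => Real.logb 2 (B + y n) with hl
  have hdiff : ∀ n, l (n + 2) - l n = Real.logb 2 (y (n + 3)) := by
    intro n
    rw [hy.step n, Real.logb_div (hu _).ne' (hu _).ne']
  have hlB : Real.logb 2 B = -1664 := by
    rw [aux2_B_rpow, Real.logb_rpow (by norm_num) (by norm_num)]
  have c1 : ∀ n, -1664 ≤ l n := by
    intro n
    rw [← hlB]
    exact Real.logb_le_logb_of_le (by norm_num) hB (by linarith [hy.pos n])
  have c2 : l 2 ≤ -1657 := by
    change Real.logb 2 (B + y 2) ≤ -1657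
    rw [Real.logb_le_iff_le_rpow (by norm_num) (hu 2), ← aux2_B_mul_rpow]
    linarith
  have c3 : ∀ n, l (n + 2) - l n ≤ l (n + 3) := by
    intro n
    rw [hdiff]
    exact Real.logb_le_logb_of_le (by norm_num) (hy.pos _) (by linarith)
  have c4 : ∀ n, l (n + 3) ≤ max (-1664) (l (n + 2) - l n) + 1 := by
    intro n
    rw [hdiff, ← hlB]
    have h1 : (1 : ℝ) = Real.logb 2 2 := (Real.logb_self_eq_one (by norm_num)).symm
    rcases le_total B (y (n + 3)) with hc | hc
    · rw [max_eq_right (Real.logb_le_logb_of_le (by norm_num) hB hc), h1,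
        ← Real.logb_mul (hy.pos _).ne' (by norm_num)]
      exact Real.logb_le_logb_of_le (by norm_num) (hu _) (by linarith)
    · rw [max_eq_left (Real.logb_le_logb_of_le (by norm_num) (hy.pos _) hc), h1,
        ← Real.logb_mul hB.ne' (by norm_num)]
      exact Real.logb_le_logb_of_le (by norm_num) (hu _) (by linarith)
  obtain ⟨N, n1, n2, n3⟩ := h l c1 c2 c3 c4
  refine ⟨N + 3, ?_, ?_, ?_⟩
  · rw [hdiff, Real.logb_le_iff_le_rpow (by norm_num) (hy.pos _)] at n1
    rw [aux2_B_div_rpow]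
    exact n1
  · have e := hdiff (N + 1)
    have n2' : l (N + 1 + 2) - l (N + 1) ≤ -1864 := n2
    rw [e, Real.logb_le_iff_le_rpow (by norm_num) (hy.pos _)] at n2'
    rw [aux2_B_div_rpow]
    exact n2'
  · have e := hdiff (N + 2)
    have n3' : l (N + 2 + 2) - l (N + 2) ≤ 1 := n3
    rw [e, Real.logb_le_iff_le_rpow (by norm_num) (hy.pos _), Real.rpow_one] at n3'
    exact n3'

end Pool.Agent.R993.RR
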