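import Pool.Agent.R993.RR.Final
import Pool.Agent.R49.RR.StT
import Pool.Agent.R861.RRSt1a
import Pool.Agent.R712.RRSt1
import Pool.Agent.R91.RR.St2b
import Pool.Agent.R993.RR.St2
import Pool.Agent.R466.RR.St6
import Pool.Agent.R668.RR.St7
import Pool.Agent.R676.RR.St9
import Pool.Agent.H983.RR.St10a
import Pool.Agent.R611.RR.St10b

namespace Pool.Agent.R993.RR

open Filter Topology

/-- everything except the single cycles, the type i variation and the loop variation -/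
theorem main0 (h3 : St3) (h4 : St4)
    (h8' : St3 → St4 → St5 → St6 → St7 → St8) (h5' : StT → St3 → St5) :
    ∃ B : ℝ, B = 1 / 2 ^ 1664 ∧ 0 < B ∧ B < Real.sqrt 2 - 1 ∧
      ∀ y : ℕ → ℝ, (∀ n, 0 < y n) → (∀ n, y (n + 3) = (B + y (n + 2)) / (B + y n)) →
        Tendsto y atTop (𝓝 1) ∨
        ∃ p : ℕ → ℝ, (∀ n, 0 < p n) ∧ (∀ n, p (n + 3) = (B + p (n + 2)) / (B + p n)) ∧
          (∀ n, p (n + 97) = p n) ∧ Tendsto (fun n => |y n - p n|) atTop (𝓝 0) := by
  have hT : StT := Pool.Agent.R49.RR.stT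
  have h1 : St1 := Pool.Agent.R712.RR.st1 Pool.Agent.R861.RR.st1a
  have h2 : St2 := st2 st2b
  have h5 : St5 := h5' hT h3
  have h6 : St6 := Pool.Agent.R466.RR.st6 hT h4
  have h7 : St7 := R668.RR7.st7 h3 h4
  have h8 : St8 := h8' h3 h4 h5 h6 h7
  have h9 : St9 := Pool.Agent.R676.RR.st9 h3
  exact final_result h1 h2 h9 (st10a hT h7 h8) Pool.Agent.R611.RR.st10b

end Pool.Agent.R993.RR
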