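import Pool.Agent.R993.RR.Main0
import Pool.Agent.R193.RR.St5
import Pool.Agent.R408.RRSt8

namespace Pool.Agent.R993.RR

open Filter Topology

/-- everything except the single cycles -/
theorem main1 (h3 : St3) (h4 : St4) :
    ∃ B : ℝ, B = 1 / 2 ^ 1664 ∧ 0 < B ∧ B < Real.sqrt 2 - 1 ∧
      ∀ y : ℕ → ℝ, (∀ n, 0 < y n) → (∀ n, y (n + 3) = (B + y (n + 2)) / (B + y n)) →
        Tendsto y atTop (𝓝 1) ∨
        ∃ p : ℕ → ℝ, (∀ n, 0 < p n) ∧ (∀ n, p (n + 3) = (B + p (n + 2)) / (B + p n)) ∧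
          (∀ n, p (n + 97) = p n) ∧ Tendsto (fun n => |y n - p n|) atTop (𝓝 0) :=
  main0 h3 h4 st8 st5

end Pool.Agent.R993.RR
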